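import Pool.Agent.H203R3.FD.Heat

/-!
# The heat semigroup of the free difference quotients never converges uniformly

Negative answer to Q1 of MP_5b305c_an. Let `x = (x_1, …, x_m)`, `m ≥ 1`, be self-adjoint elements
generating a tracial von Neumann algebra `N`, represented on `H = L²(N)` with trace vector `Ω`,
and assume that the conjugate variables exist (finite free Fisher information). Then the heat
semigroup `φ_t = exp(- t Δ)`, `Δ = ∑ ∂_i^* ∂̄_i`, exists, and
`sup {‖φ_t(y) - y‖₂ : y ∈ N, ‖y‖ ≤ 1}` does not tend to `0` as `t → 0+`.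

Proof idea: for the Cayley transform `U` of `x_1` one has `‖∂ U^n‖² ≥ c n` (all cross terms are
squares of absolute values), while a Tricomi type identity shows that the partial traces of
`∂ U^n` are bounded in `L²` uniformly in `n`, so that `‖Δ U^n‖ ≤ C n`. The semigroup inequality
`Re ⟨h - φ_t h, h⟩ ≥ t ⟨Δ h, h⟩ - t² ‖Δ h‖² / 2` with `t = c / (C² n)` then gives
`‖φ_t(U^n) - U^n‖₂ ≥ c² / (2 C²)` for all `n`.
-/

open scoped InnerProductSpace TensorProduct Topology
open Filter H203R3.FD

namespace Pool.Agent.Results.MP_5b305c_an.NeverUniform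

/-- For every tuple with finite free Fisher information the heat semigroup exists and does not
converge to the identity uniformly on the unit ball of `W*(x)`. -/
theorem result {H : Type*} [NormedAddCommGroup H] [InnerProductSpace ℂ H] [CompleteSpace H]
    {m : ℕ} (hm : 0 < m) (x : Fin m → H →L[ℂ] H) (Ω : H)
    (hT : IsTracialTuple x Ω) (hF : FiniteFisher x Ω) :
    (∃ φ : ℝ → H →L[ℂ] H, IsHeatSemigroup x Ω φ) ∧
      ∀ φ : ℝ → H →L[ℂ] H, IsHeatSemigroup x Ω φ →
        ¬ Tendsto (ballDist x Ω φ) (𝓝[>] 0) (𝓝 0) :=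
  final hm hT hF

end Pool.Agent.Results.MP_5b305c_an.NeverUniform
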